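import Mathlib

set_option autoImplicit false

namespace Pool.Agent.Results.MP_fcdf0e_gt.CountableClosedLocallyCompact

open Set Topology

/-- From a family cushioned in a cover one gets an open neighbourhood assignment whose inverse
images of points lie in single members of the cover. -/
lemma neighbornet_of_cushioned {X : Type*} [TopologicalSpace X] (N : Set (Set X))
    (Φ : Set X → Set X)
    (hc : ∀ M ⊆ N, closure (⋃₀ M) ⊆ ⋃₀ (Φ '' M)) :
    ∃ V : X → Set X, (∀ x, IsOpen (V x)) ∧ (∀ x, x ∈ V x) ∧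
      ∀ S ∈ N, ∀ a ∈ S, ∀ x, a ∈ V x → x ∈ Φ S := by
  refine ⟨fun x => (closure (⋃₀ {S | S ∈ N ∧ x ∉ Φ S}))ᶜ, fun x => isClosed_closure.isOpen_compl,
    fun x hx => ?_, fun S hS a ha x hax => ?_⟩
  · have h := hc {S | S ∈ N ∧ x ∉ Φ S} (fun S hS => hS.1) hx
    obtain ⟨T, ⟨S, hS, rfl⟩, hxT⟩ := h
    exact hS.2 hxT
  · by_contra hx
    exact hax (subset_closure ⟨S, ⟨hS, hx⟩, ha⟩)

/-- The union of the sets `W y`, `y ∈ Y`. -/
def un {X : Type*} (W : X → Set X) (Y : Set X) : Set X := ⋃ y ∈ Y, W y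

lemma mem_un {X : Type*} {W : X → Set X} {Y : Set X} {x : X} :
    x ∈ un W Y ↔ ∃ y ∈ Y, x ∈ W y := by
  simp [un]

lemma un_mono {X : Type*} {W : X → Set X} {Y Z : Set X} (h : Y ⊆ Z) : un W Y ⊆ un W Z := by
  intro x hx
  obtain ⟨y, hy, hxy⟩ := mem_un.1 hx
  exact mem_un.2 ⟨y, h hy, hxy⟩

lemma isOpen_un {X : Type*} [TopologicalSpace X] {W : X → Set X} (hW : ∀ x, IsOpen (W x))
    (Y : Set X) : IsOpen (un W Y) :=
  isOpen_biUnion fun y _ => hW y

/-- Key selection lemma, inside a set `F`. -/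
lemma selection {X : Type*} [TopologicalSpace X] (F : Set X) (V : ℕ → X → Set X)
    (W : X → Set X) (m : X → ℕ) (K : X → Set X)
    (hVo : ∀ n x, IsOpen (V n x)) (hVm : ∀ n x, x ∈ V n x)
    (hanti : ∀ i j x, i ≤ j → V j x ⊆ V i x)
    (hWo : ∀ x, IsOpen (W x)) (hWm : ∀ x, x ∈ W x)
    (hK : ∀ a, IsCompact (K a)) (hKF : ∀ a, K a ⊆ F)
    (hVK : ∀ a, ∀ x ∈ F, a ∈ V (m a) x → x ∈ K a) :
    ∃ Y ⊆ F, F ⊆ un W Y ∧
      ∀ i, ∀ x ∈ F, ∃ O, IsOpen O ∧ x ∈ O ∧ (O ∩ {y | y ∈ Y ∧ m y ≤ i}).Finite := by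
  classical
  let P : Set X → Prop := fun Y => Y ⊆ F ∧ (∀ y ∈ Y, K y ⊆ un W Y) ∧
    ∀ i, ∀ x ∈ F, x ∈ un W Y → ∃ O, IsOpen O ∧ x ∈ O ∧ (O ∩ {y | y ∈ Y ∧ m y ≤ i}).Finite
  let r : {Y : Set X // P Y} → {Y : Set X // P Y} → Prop := fun A B =>
    A.1 ⊆ B.1 ∧ ∀ y ∈ B.1, y ∈ un W A.1 → y ∈ A.1
  have hout : ∀ Y : Set X, (∀ y ∈ Y, K y ⊆ un W Y) → ∀ i, ∀ x ∈ F, x ∉ un W Y →
      ∃ O, IsOpen O ∧ x ∈ O ∧ (O ∩ {y | y ∈ Y ∧ m y ≤ i}).Finite := by
    intro Y hY i x hxF hx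
    refine ⟨V i x, hVo i x, hVm i x, ?_⟩
    have : V i x ∩ {y | y ∈ Y ∧ m y ≤ i} = ∅ := by
      ext y
      simp only [mem_inter_iff, mem_empty_iff_false, iff_false]
      rintro ⟨hy, hyY, hmy⟩
      exact hx (hY y hyY (hVK y x hxF (hanti _ _ x hmy hy)))
    rw [this]
    exact finite_empty
  have htrans : ∀ {a b c}, r a b → r b c → r a c := by
    intro a b c hab hbc
    refine ⟨hab.1.trans hbc.1, fun y hy hya => ?_⟩
    exact hab.2 y (hbc.2 y hy (un_mono hab.1 hya)) hya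
  have hchain : ∀ c : Set {Y : Set X // P Y}, IsChain r c → ∃ ub, ∀ a ∈ c, r a ub := by
    intro c hc
    have hcmp : ∀ A ∈ c, ∀ B ∈ c, ∀ y ∈ B.1, y ∈ un W A.1 → y ∈ A.1 := by
      intro A hA B hB y hy hyA
      rcases eq_or_ne A B with h | h
      · rw [h]; exact hy
      · rcases hc hA hB h with h1 | h1
        · exact h1.2 y hy hyA
        · exact h1.1 hy
    let Z : Set X := ⋃ A ∈ c, A.1
    have hAZ : ∀ A ∈ c, A.1 ⊆ Z := fun A hA x hx => mem_biUnion hA hx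
    have hmemZ : ∀ y ∈ Z, ∃ A ∈ c, y ∈ A.1 := by
      intro y hy
      simpa [Z] using hy
    have hPZ : P Z := by
      refine ⟨fun y hy => ?_, fun y hy => ?_, fun i x hxF hx => ?_⟩
      · obtain ⟨A, hA, hyA⟩ := hmemZ y hy
        exact A.2.1 hyA
      · obtain ⟨A, hA, hyA⟩ := hmemZ y hy
        exact (A.2.2.1 y hyA).trans (un_mono (hAZ A hA))
      · obtain ⟨z, hz, hxz⟩ := mem_un.1 hx
        obtain ⟨A, hA, hzA⟩ := hmemZ z hz
        have hxA : x ∈ un W A.1 := mem_un.2 ⟨z, hzA, hxz⟩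
        obtain ⟨O, hO, hxO, hfin⟩ := A.2.2.2 i x hxF hxA
        refine ⟨O ∩ un W A.1, hO.inter (isOpen_un hWo _), ⟨hxO, hxA⟩, hfin.subset ?_⟩
        rintro y ⟨⟨hyO, hyA⟩, hyZ, hym⟩
        obtain ⟨B, hB, hyB⟩ := hmemZ y hyZ
        exact ⟨hyO, hcmp A hA B hB y hyB hyA, hym⟩
    refine ⟨⟨Z, hPZ⟩, fun A hA => ⟨hAZ A hA, fun y hy hyA => ?_⟩⟩
    obtain ⟨B, hB, hyB⟩ := hmemZ y hy
    exact hcmp A hA B hB y hyB hyA
  obtain ⟨⟨Y, hPY⟩, hmax⟩ := exists_maximal_of_chains_bounded hchain htrans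
  have hcov : F ⊆ un W Y := by
    by_contra hne
    obtain ⟨x₀, hx₀F, hx₀⟩ := not_subset.1 hne
    -- finite selection for compact sets
    have hsel : ∀ (E : Set X) (B : Set X), B.Finite →
        ∃ G : Set X, G.Finite ∧ G ⊆ (⋃ y ∈ B, K y) \ un W E ∧
          (⋃ y ∈ B, K y) \ un W E ⊆ un W G := by
      intro E B hB
      have hcomp : IsCompact ((⋃ y ∈ B, K y) \ un W E) :=
        (hB.isCompact_biUnion fun y _ => hK y).diff (isOpen_un hWo _)
      obtain ⟨t, ht, hfin, hsub⟩ := hcomp.elim_finite_subcover_image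
        (b := (⋃ y ∈ B, K y) \ un W E) (c := W) (fun y _ => hWo y)
        (fun y hy => mem_biUnion hy (hWm y))
      exact ⟨t, hfin, ht, hsub⟩
    choose! G hGfin hGsub hGcov using hsel
    -- sequence of pairs: everything chosen so far, and the last layer
    let s : ℕ → Set X × Set X := fun k => Nat.rec (Y ∪ {x₀}, {x₀})
      (fun _ p => (p.1 ∪ G p.1 p.2, G p.1 p.2)) k
    have hs1 : ∀ k, (s (k + 1)).1 = (s k).1 ∪ G (s k).1 (s k).2 := fun k => rfl
    have hs2 : ∀ k, (s (k + 1)).2 = G (s k).1 (s k).2 := fun k => rfl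
    have hs01 : (s 0).1 = Y ∪ {x₀} := rfl
    have hs02 : (s 0).2 = {x₀} := rfl
    have hfinF : ∀ k, (s k).2.Finite := by
      intro k
      induction k with
      | zero => rw [hs02]; exact finite_singleton _
      | succ k ih => rw [hs2]; exact hGfin _ _ ih
    have hGF : ∀ k, G (s k).1 (s k).2 ⊆ F := by
      intro k y hy
      obtain ⟨z, _, hyz⟩ := mem_iUnion₂.1 (hGsub _ _ (hfinF k) hy).1
      exact hKF z hyz
    have hsF : ∀ k, (s k).1 ⊆ F := by
      intro k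
      induction k with
      | zero =>
        rw [hs01]
        exact union_subset hPY.1 (singleton_subset_iff.2 hx₀F)
      | succ k ih => rw [hs1]; exact union_subset ih (hGF k)
    have hmono : ∀ k l, k ≤ l → (s k).1 ⊆ (s l).1 := by
      intro k l hkl
      induction l, hkl using Nat.le_induction with
      | base => exact subset_rfl
      | succ l _ ih => rw [hs1]; exact ih.trans subset_union_left
    have hlayer : ∀ k, ∀ y ∈ (s k).1, y ∈ Y ∨ ∃ j, j ≤ k ∧ y ∈ (s j).2 := by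
      intro k
      induction k with
      | zero =>
        intro y hy
        rw [hs01] at hy
        rcases hy with hy | hy
        · exact Or.inl hy
        · exact Or.inr ⟨0, le_rfl, by rw [hs02]; exact hy⟩
      | succ k ih =>
        intro y hy
        rw [hs1] at hy
        rcases hy with hy | hy
        · rcases ih y hy with h | ⟨j, hj, h⟩
          · exact Or.inl h
          · exact Or.inr ⟨j, hj.trans (Nat.le_succ k), h⟩
        · exact Or.inr ⟨k + 1, le_rfl, by rw [hs2]; exact hy⟩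
    -- later elements are outside the union of the earlier ones
    have hnew : ∀ k l, k ≤ l → ∀ y ∈ (s l).1, y ∈ un W (s k).1 → y ∈ (s k).1 := by
      intro k l hkl
      induction l, hkl using Nat.le_induction with
      | base => intro y hy _; exact hy
      | succ l hkl ih =>
        intro y hy hyk
        rw [hs1] at hy
        rcases hy with hy | hy
        · exact ih y hy hyk
        · exact absurd (un_mono (hmono k l hkl) hyk) (hGsub _ _ (hfinF l) hy).2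
    have hKk : ∀ k, ∀ y ∈ (s k).2, K y ⊆ un W (s (k + 1)).1 := by
      intro k y hy x hx
      by_cases hxE : x ∈ un W (s k).1
      · exact un_mono (hmono k (k + 1) (Nat.le_succ k)) hxE
      · have h1 : x ∈ (⋃ y ∈ (s k).2, K y) \ un W (s k).1 := ⟨mem_biUnion hy hx, hxE⟩
        have h2 := hGcov _ _ (hfinF k) h1
        rw [hs1]
        exact un_mono subset_union_right h2
    let Z : Set X := ⋃ k, (s k).1
    have hkZ : ∀ k, (s k).1 ⊆ Z := fun k => subset_iUnion (fun k => (s k).1) k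
    have hYs : ∀ k, Y ⊆ (s k).1 := by
      intro k
      refine Subset.trans ?_ (hmono 0 k (Nat.zero_le k))
      rw [hs01]; exact subset_union_left
    have hZnew : ∀ k, ∀ y ∈ Z, y ∈ un W (s k).1 → y ∈ (s k).1 := by
      intro k y hy hyk
      obtain ⟨l, hl⟩ := mem_iUnion.1 hy
      rcases le_total k l with h | h
      · exact hnew k l h y hl hyk
      · exact hmono l k h hl
    have hZY : ∀ y ∈ Z, y ∈ un W Y → y ∈ Y := by
      intro y hy hyY
      obtain ⟨l, hl⟩ := mem_iUnion.1 hy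
      rcases hlayer l y hl with h | ⟨j, hj, h⟩
      · exact h
      · exfalso
        cases j with
        | zero =>
          rw [hs02] at h
          rw [mem_singleton_iff.1 h] at hyY
          exact hx₀ hyY
        | succ j =>
          rw [hs2] at h
          exact (hGsub _ _ (hfinF j) h).2 (un_mono (hYs j) hyY)
    have hPZ : P Z := by
      refine ⟨iUnion_subset hsF, fun y hy => ?_, fun i x hxF hx => ?_⟩
      · obtain ⟨l, hl⟩ := mem_iUnion.1 hy
        rcases hlayer l y hl with h | ⟨j, hj, h⟩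
        · exact (hPY.2.1 y h).trans (un_mono ((hYs 0).trans (hkZ 0)))
        · exact (hKk j y h).trans (un_mono (hkZ (j + 1)))
      · obtain ⟨z, hz, hxz⟩ := mem_un.1 hx
        obtain ⟨k, hk⟩ := mem_iUnion.1 hz
        have hxk : x ∈ un W (s k).1 := mem_un.2 ⟨z, hk, hxz⟩
        have hYn : ∃ O, IsOpen O ∧ x ∈ O ∧ (O ∩ {y | y ∈ Y ∧ m y ≤ i}).Finite := by
          by_cases hxY : x ∈ un W Y
          · exact hPY.2.2 i x hxF hxY
          · exact hout Y hPY.2.1 i x hxF hxY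
        obtain ⟨O, hO, hxO, hfin⟩ := hYn
        have hfinE : (⋃ j ∈ Finset.range (k + 1), (s j).2).Finite :=
          Set.Finite.biUnion (Finset.finite_toSet _) fun j _ => hfinF j
        refine ⟨O ∩ un W (s k).1, hO.inter (isOpen_un hWo _), ⟨hxO, hxk⟩,
          (hfin.union hfinE).subset ?_⟩
        rintro y ⟨⟨hyO, hyk⟩, hyZ, hym⟩
        rcases hlayer k y (hZnew k y hyZ hyk) with h | ⟨j, hj, h⟩
        · exact Or.inl ⟨hyO, h, hym⟩
        · refine Or.inr (mem_biUnion (x := j) ?_ h)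
          simp only [Finset.coe_range, mem_Iio]
          omega
    have hx₀Z : x₀ ∈ Z := hkZ 0 (by rw [hs01]; exact Or.inr rfl)
    have hr : r ⟨Y, hPY⟩ ⟨Z, hPZ⟩ := ⟨(hYs 0).trans (hkZ 0), hZY⟩
    have hr' := hmax ⟨Z, hPZ⟩ hr
    exact hx₀ (mem_un.2 ⟨x₀, hr'.1 hx₀Z, hWm x₀⟩)
  exact ⟨Y, hPY.1, hcov, fun i x hxF => hPY.2.2 i x hxF (hcov hxF)⟩

/-- A set which is locally finite at the points of a compact set meets it in a finite set. -/
lemma finite_of_compact {X : Type*} [TopologicalSpace X] {S K : Set X} (hK : IsCompact K)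
    (h : ∀ x ∈ K, ∃ O, IsOpen O ∧ x ∈ O ∧ (O ∩ S).Finite) : (K ∩ S).Finite := by
  refine hK.induction_on (p := fun A => (A ∩ S).Finite) ?_ ?_ ?_ ?_
  · simp
  · exact fun s t hst ht => ht.subset (inter_subset_inter_left _ hst)
  · intro s t hs ht
    rw [union_inter_distrib_right]
    exact hs.union ht
  · intro x hx
    obtain ⟨O, hO, hxO, hfin⟩ := h x hx
    exact ⟨O, mem_nhdsWithin_of_mem_nhds (hO.mem_nhds hxO), hfin⟩

/-- The open sets whose trace on the closed set `F` lies in a compact subset of `F` cover the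
space when `F` is weakly locally compact. -/
lemma exists_trace {X : Type*} [TopologicalSpace X] (F : Set X) (hF : IsClosed F)
    (hloc : WeaklyLocallyCompactSpace F) (x : X) :
    ∃ U, IsOpen U ∧ x ∈ U ∧ ∃ L ⊆ F, IsCompact L ∧ U ∩ F ⊆ L := by
  by_cases hx : x ∈ F
  · obtain ⟨L, hL, hLx⟩ := exists_compact_mem_nhds (⟨x, hx⟩ : F)
    obtain ⟨U, hU, hUL⟩ := mem_nhds_subtype F ⟨x, hx⟩ L |>.1 hLx
    obtain ⟨O, hOU, hO, hxO⟩ := mem_nhds_iff.1 hU
    refine ⟨O, hO, hxO, Subtype.val '' L, ?_, hL.image continuous_subtype_val, ?_⟩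
    · rintro _ ⟨y, _, rfl⟩
      exact y.2
    · rintro y ⟨hyO, hyF⟩
      exact ⟨⟨y, hyF⟩, hUL (hOU hyO), rfl⟩
  · exact ⟨Fᶜ, hF.isOpen_compl, hx, ∅, empty_subset _, isCompact_empty, by simp⟩

/-- Suppose the space is the union of countably many closed subspaces which are weakly locally
compact (for instance, that it is itself weakly locally compact). If every directed open cover
has a σ-cushioned refinement, then the space is submetacompact. -/
theorem result :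
    ∀ (X : Type) [TopologicalSpace X],
      (∃ F : ℕ → Set X, (∀ i, IsClosed (F i)) ∧ (⋃ i, F i) = Set.univ ∧
        ∀ i, WeaklyLocallyCompactSpace (F i)) →
      (∀ 𝒰 : Set (Set X), (∀ U ∈ 𝒰, IsOpen U) → ⋃₀ 𝒰 = Set.univ →
          DirectedOn (· ⊆ ·) 𝒰 →
          ∃ 𝒩 : ℕ → Set (Set X), ⋃₀ (⋃ n, 𝒩 n) = Set.univ ∧
            ∀ n, ∃ Φ : Set X → Set X, (∀ N ∈ 𝒩 n, Φ N ∈ 𝒰) ∧
              ∀ 𝓜 ⊆ 𝒩 n, closure (⋃₀ 𝓜) ⊆ ⋃₀ (Φ '' 𝓜)) →
      (∀ 𝒰 : Set (Set X), (∀ U ∈ 𝒰, IsOpen U) → ⋃₀ 𝒰 = Set.univ →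
          ∃ 𝒢 : ℕ → Set (Set X),
            (∀ n, (∀ G ∈ 𝒢 n, IsOpen G ∧ ∃ U ∈ 𝒰, G ⊆ U) ∧ ⋃₀ (𝒢 n) = Set.univ) ∧
            ∀ x : X, ∃ n, {G | G ∈ 𝒢 n ∧ x ∈ G}.Finite) := by
  rintro X _ ⟨F, hFc, hFu, hFl⟩ hX C hCo hCc
  classical
  -- choose a member of the cover around every point
  have hU : ∀ x, ∃ U ∈ C, x ∈ U := by
    intro x
    have hx : x ∈ ⋃₀ C := by rw [hCc]; exact mem_univ x
    obtain ⟨U, hU, hxU⟩ := hx
    exact ⟨U, hU, hxU⟩
  choose U hUC hxU using hU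
  -- countable families of closed sets inside increasing covers
  have hI : ∀ G : ℕ → Set X, (∀ i, IsOpen (G i)) → Monotone G → ⋃ i, G i = univ →
      ∃ T : ℕ → ℕ → Set X, (∀ k i, IsClosed (T k i)) ∧ (∀ k i, T k i ⊆ G i) ∧
        ∀ x, ∃ k i, x ∈ T k i := by
    intro G hGo hGm hGc
    have hd : DirectedOn (· ⊆ ·) (range G) := by
      rintro _ ⟨i, rfl⟩ _ ⟨j, rfl⟩
      exact ⟨G (max i j), ⟨_, rfl⟩, hGm (le_max_left i j), hGm (le_max_right i j)⟩
    obtain ⟨N, hNc, hN⟩ := hX (range G) (by rintro _ ⟨i, rfl⟩; exact hGo i)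
      (by rw [sUnion_range]; exact hGc) hd
    choose Ψ hΨ hcush using hN
    refine ⟨fun k i => closure (⋃₀ {S | S ∈ N k ∧ Ψ k S ⊆ G i}), fun k i => isClosed_closure,
      fun k i => ?_, fun x => ?_⟩
    · refine (hcush k _ fun S hS => hS.1).trans ?_
      rintro x ⟨_, ⟨S, hS, rfl⟩, hx⟩
      exact hS.2 hx
    · have hx : x ∈ ⋃₀ (⋃ n, N n) := by rw [hNc]; exact mem_univ x
      obtain ⟨S, hS, hxS⟩ := hx
      obtain ⟨k, hk⟩ := mem_iUnion.1 hS
      obtain ⟨i, hi⟩ := hΨ k S hk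
      exact ⟨k, i, subset_closure ⟨S, ⟨hk, hi.ge⟩, hxS⟩⟩
  -- the theta sequence at the points of one closed set
  have key : ∀ A : Set X, IsClosed A → WeaklyLocallyCompactSpace A →
      ∃ H : ℕ → Set (Set X), (∀ j, (∀ B ∈ H j, IsOpen B ∧ ∃ U ∈ C, B ⊆ U) ∧ ⋃₀ (H j) = univ) ∧
        ∀ x ∈ A, ∃ j, {B | B ∈ H j ∧ x ∈ B}.Finite := by
    intro A hA hAl
    let D : Set (Set X) := {U | IsOpen U ∧ ∃ L ⊆ A, IsCompact L ∧ U ∩ A ⊆ L}
    have hDc : ⋃₀ D = univ := by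
      refine eq_univ_of_forall fun x => ?_
      obtain ⟨U, hU, hxU, hL⟩ := exists_trace A hA hAl x
      exact ⟨U, ⟨hU, hL⟩, hxU⟩
    have hDd : DirectedOn (· ⊆ ·) D := by
      rintro B ⟨hB, L, hLA, hL, hBL⟩ B' ⟨hB', L', hLA', hL', hBL'⟩
      refine ⟨B ∪ B', ⟨hB.union hB', L ∪ L', union_subset hLA hLA', hL.union hL', ?_⟩,
        subset_union_left, subset_union_right⟩
      rw [union_inter_distrib_right]
      exact union_subset_union hBL hBL'
    obtain ⟨N, hNc, hN⟩ := hX D (fun U hU => hU.1) hDc hDd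
    choose Φ hΦ hcush using hN
    choose V₀ hV₀o hV₀m hV₀ using fun n => neighbornet_of_cushioned (N n) (Φ n) (hcush n)
    let V : ℕ → X → Set X := fun n x => ⋂ i ∈ Finset.range (n + 1), V₀ i x
    have hVo : ∀ n x, IsOpen (V n x) := fun n x => by
      apply isOpen_biInter_finset
      intro i _
      exact hV₀o i x
    have hVm : ∀ n x, x ∈ V n x := fun n x => mem_iInter₂.2 fun i _ => hV₀m i x
    have hanti : ∀ i j x, i ≤ j → V j x ⊆ V i x := by
      intro i j x hij a ha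
      refine mem_iInter₂.2 fun k hk => mem_iInter₂.1 ha k ?_
      rw [Finset.mem_range] at hk ⊢
      omega
    have hcomp : ∀ a, ∃ n, ∃ L ⊆ A, IsCompact L ∧ ∀ x ∈ A, a ∈ V n x → x ∈ L := by
      intro a
      have ha : a ∈ ⋃₀ (⋃ n, N n) := by rw [hNc]; exact mem_univ a
      obtain ⟨S, hS, haS⟩ := ha
      obtain ⟨n, hn⟩ := mem_iUnion.1 hS
      obtain ⟨_, L, hLA, hL, hΦL⟩ := hΦ n S hn
      refine ⟨n, L, hLA, hL, fun x hxA hx => hΦL ⟨hV₀ n S hn a haS x ?_, hxA⟩⟩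
      exact mem_iInter₂.1 hx n (by simp)
    choose m K hKA hK hVK using hcomp
    let W : ℕ → X → Set X := fun n x => V n x ∩ U x
    have hWo : ∀ n x, IsOpen (W n x) := fun n x => (hVo n x).inter (hCo _ (hUC x))
    have hWm : ∀ n x, x ∈ W n x := fun n x => ⟨hVm n x, hxU x⟩
    choose Y hYA hYc hYf using fun n =>
      selection A V (W n) m K hVo hVm hanti (hWo n) (hWm n) hK hKA hVK
    let G : ℕ → ℕ → Set X := fun n i => un (W n) {y | y ∈ Y n ∧ m y ≤ i} ∪ Aᶜ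
    have hGo : ∀ n i, IsOpen (G n i) := fun n i =>
      (isOpen_un (hWo n) _).union hA.isOpen_compl
    have hGc : ∀ n, ⋃ i, G n i = univ := by
      intro n
      refine eq_univ_of_forall fun x => ?_
      by_cases hxA : x ∈ A
      · obtain ⟨y, hy, hxy⟩ := mem_un.1 (hYc n hxA)
        exact mem_iUnion.2 ⟨m y, Or.inl (mem_un.2 ⟨y, ⟨hy, le_rfl⟩, hxy⟩)⟩
      · exact mem_iUnion.2 ⟨0, Or.inr hxA⟩
    have hGm : ∀ n, Monotone (G n) := by
      intro n i j hij
      exact union_subset_union_left _ (un_mono fun y hy => ⟨hy.1, hy.2.trans hij⟩)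
    choose T hTc hTG hTx using fun n => hI (G n) (hGo n) (hGm n) (hGc n)
    let H : ℕ → ℕ → ℕ → Set (Set X) := fun n k i =>
      (W n) '' {y | y ∈ Y n ∧ m y ≤ i} ∪ (fun B => B \ (T n k i ∩ A)) '' C
    have hH : ∀ n k i, (∀ B ∈ H n k i, IsOpen B ∧ ∃ U ∈ C, B ⊆ U) ∧ ⋃₀ (H n k i) = univ := by
      intro n k i
      refine ⟨?_, ?_⟩
      · rintro _ (⟨y, hy, rfl⟩ | ⟨B, hB, rfl⟩)
        · exact ⟨hWo n y, U y, hUC y, inter_subset_right⟩
        · exact ⟨(hCo B hB).sdiff ((hTc n k i).inter hA), B, hB, sdiff_subset⟩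
      · refine eq_univ_of_forall fun x => ?_
        by_cases hx : x ∈ T n k i ∩ A
        · rcases hTG n k i hx.1 with h | h
          · obtain ⟨y, hy, hxy⟩ := mem_un.1 h
            exact ⟨W n y, Or.inl ⟨y, hy, rfl⟩, hxy⟩
          · exact absurd hx.2 h
        · exact ⟨U x \ (T n k i ∩ A), Or.inr ⟨U x, hUC x, rfl⟩, hxU x, hx⟩
    refine ⟨fun j => H j.unpair.1 j.unpair.2.unpair.1 j.unpair.2.unpair.2, fun j => hH _ _ _,
      fun x hxA => ?_⟩
    obtain ⟨k, i, hki⟩ := hTx (m x) x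
    refine ⟨Nat.pair (m x) (Nat.pair k i), ?_⟩
    simp only [Nat.unpair_pair]
    have hfin := finite_of_compact (hK x) (fun z hz => hYf (m x) i z (hKA x hz))
    refine (hfin.image (W (m x))).subset ?_
    rintro _ ⟨(⟨y, hy, rfl⟩ | ⟨B, hB, rfl⟩), hx⟩
    · exact ⟨y, ⟨hVK x y (hYA _ hy.1) hx.1, hy⟩, rfl⟩
    · exact absurd ⟨hki, hxA⟩ hx.2
  choose H hH hHf using fun i => key (F i) (hFc i) (hFl i)
  refine ⟨fun j => H j.unpair.1 j.unpair.2, fun j => hH _ _, fun x => ?_⟩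
  have hx : x ∈ ⋃ i, F i := by rw [hFu]; exact mem_univ x
  obtain ⟨i, hi⟩ := mem_iUnion.1 hx
  obtain ⟨j, hj⟩ := hHf i x hi
  refine ⟨Nat.pair i j, ?_⟩
  simp only [Nat.unpair_pair]
  exact hj

end Pool.Agent.Results.MP_fcdf0e_gt.CountableClosedLocallyCompact
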